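import Mathlib

namespace Pool.Agent.Results.MP_fd0bc0_an.Product

open MeasureTheory Set Real

/-- Lebesgue measure on `(0,∞)`. -/
noncomputable def μ : Measure ℝ := volume.restrict (Ioi 0)

noncomputable abbrev H := Lp ℂ 2 μ

noncomputable abbrev Op := H →ₗ.[ℂ] H

def IsKernel (k : ℝ → ℝ → ℂ) : Prop :=
  AEStronglyMeasurable (Function.uncurry k) (μ.prod μ) ∧ ∀ᵐ x ∂μ, MemLp (k x) 2 μ

/-- `g(x) = ∫ k(x,y) f(y) dy` for almost every `x`. -/
def Rep (k : ℝ → ℝ → ℂ) (f g : H) : Prop := ∀ᵐ x ∂μ, g x = ∫ y, k x y * f y ∂μ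

/-- `f ∈ D(A)` and `A f = g`. -/
def Maps (A : Op) (f g : H) : Prop := ∃ h : f ∈ A.domain, A ⟨f, h⟩ = g

def IsCarleman (A : Op) : Prop := ∃ k, IsKernel k ∧ ∀ f g, Maps A f g → Rep k f g

lemma build (k : ℝ → ℝ → ℂ) (hk : ∀ x, MemLp (k x) 2 μ) :
    ∃ A : Op, ∀ f g, Maps A f g ↔ Rep k f g := by
  have hi : ∀ x (f : H), Integrable (fun y => k x y * f y) μ := fun x f =>
    (hk x).integrable_mul (Lp.memLp f)
  let G : Submodule ℂ (H × H) :=
    { carrier := {p | Rep k p.1 p.2}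
      add_mem' := fun {p q} hp hq => by
        filter_upwards [hp, hq, Lp.coeFn_add p.2 q.2] with x h1 h2 h3
        rw [Prod.snd_add, h3, Pi.add_apply, h1, h2, ← integral_add (hi _ _) (hi _ _)]
        refine integral_congr_ae ?_
        filter_upwards [Lp.coeFn_add p.1 q.1] with y hy
        rw [Prod.fst_add, hy, Pi.add_apply, mul_add]
      zero_mem' := by
        filter_upwards [Lp.coeFn_zero ℂ 2 μ] with x h1
        rw [Prod.snd_zero, h1, Prod.fst_zero]
        refine (integral_eq_zero_of_ae ?_).symm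
        filter_upwards [Lp.coeFn_zero ℂ 2 μ] with y hy
        rw [hy]; simp
      smul_mem' := fun c p hp => by
        filter_upwards [hp, Lp.coeFn_smul c p.2] with x h1 h3
        rw [Prod.smul_snd, h3, Pi.smul_apply, h1, smul_eq_mul, ← integral_const_mul]
        refine integral_congr_ae ?_
        filter_upwards [Lp.coeFn_smul c p.1] with y hy
        rw [Prod.smul_fst, hy, Pi.smul_apply, smul_eq_mul]; ring }
  have hG : ∀ p ∈ G, p.1 = 0 → p.2 = 0 := fun p hp h0 => by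
    have h1 : Rep k p.1 p.2 := hp
    have h2 : Rep k p.1 0 := by rw [h0]; exact G.zero_mem
    exact Lp.ext (by filter_upwards [h1, h2] with x a b using a.trans b.symm)
  refine ⟨G.toLinearPMap, fun f g => ?_⟩
  change _ ↔ (f, g) ∈ G
  conv_rhs => rw [← G.toLinearPMap_graph_eq hG, LinearPMap.mem_graph_iff]
  exact ⟨fun ⟨h, e⟩ => ⟨⟨f, h⟩, rfl, e⟩, fun ⟨⟨y, hy⟩, h, e⟩ => by cases h; exact ⟨hy, e⟩⟩

theorem result : ∃ A B : Op, IsCarleman A ∧ IsCarleman B ∧
    ¬ ∃ k, IsKernel k ∧ ∀ f g h, Maps B f g → Maps A g h → Rep k f h := by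
  have : SFinite μ := by unfold μ; infer_instance
  have fin : ∀ a b : ℝ, μ (Ico a b) ≠ ⊤ := fun a b =>
    ne_top_of_le_ne_top (by simp) (Measure.restrict_apply_le (Ioi 0) (Ico a b))
  have res : ∀ n : ℕ, μ.restrict (Ico ((n : ℝ) + 1) (n + 1 + 1)) =
      volume.restrict (Ico ((n : ℝ) + 1) (n + 1 + 1)) := fun n =>
    Measure.restrict_restrict_of_subset fun x hx => lt_of_lt_of_le (by positivity) hx.1
  have ind : ∀ (a : ℝ) (c : ℂ), MemLp ((Ico a (a + 1)).indicator fun _ => c) 2 μ := fun a c =>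
    memLp_indicator_const 2 measurableSet_Ico c (Or.inr (fin _ _))
  have hexp : MemLp (fun y : ℝ => (exp (-y) : ℂ)) 2 μ := by
    rw [memLp_two_iff_integrable_sq_norm (by fun_prop : Continuous _).aestronglyMeasurable]
    refine (exp_neg_integrableOn_Ioi 0 two_pos).congr_fun (fun y _ => ?_) measurableSet_Ioi
    simp only [Complex.norm_real, norm_eq_abs, sq_abs, ← exp_nat_mul]
    norm_num
  obtain ⟨c, hc⟩ : ∃ c : ℤ → ℂ, ∀ m : ℤ, c m * ∫ y in Ico (m : ℝ) (m + 1), (exp (-y) : ℂ) = m := by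
    refine ⟨fun m => m / ∫ y in Ico (m : ℝ) (m + 1), (exp (-y) : ℂ), fun m =>
      div_mul_cancel₀ _ ?_⟩
    rw [integral_complex_ofReal, integral_Ico_eq_integral_Ioc,
      ← intervalIntegral.integral_of_le (by linarith), Complex.ofReal_ne_zero]
    exact (intervalIntegral.intervalIntegral_pos_of_pos ((by fun_prop : Continuous _).intervalIntegrable
      _ _) (fun x => exp_pos _) (by linarith)).ne'
  have kb : ∀ x : ℝ, (fun y : ℝ => if ⌊y⌋ = ⌊x⌋ then c ⌊x⌋ else 0) =
      (Ico (⌊x⌋ : ℝ) (⌊x⌋ + 1)).indicator fun _ => c ⌊x⌋ := fun x => by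
    ext y; simp [indicator, Int.floor_eq_iff]
  have ka : ∀ x : ℝ, MemLp (fun y : ℝ => (Ico (0 : ℝ) (0 + 1)).indicator (fun _ => (1 : ℂ)) x *
      exp (-y)) 2 μ := fun x => hexp.const_mul _
  obtain ⟨A, hA⟩ := build _ ka
  obtain ⟨B, hB⟩ := build (fun x y => if ⌊y⌋ = ⌊x⌋ then c ⌊x⌋ else 0) fun x => kb x ▸ ind _ _
  refine ⟨A, B, ⟨_, ⟨?_, ae_of_all _ ka⟩, fun f g => (hA f g).1⟩,
    ⟨_, ⟨?_, ae_of_all _ fun x => kb x ▸ ind _ _⟩, fun f g => (hB f g).1⟩, ?_⟩
  · exact (((measurable_const.indicator measurableSet_Ico).comp measurable_fst).mul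
      (by fun_prop)).aestronglyMeasurable
  · exact (Measurable.ite (measurableSet_eq_fun (Int.measurable_floor.comp measurable_snd)
      (Int.measurable_floor.comp measurable_fst)) ((measurable_of_countable c).comp
      (Int.measurable_floor.comp measurable_fst)) measurable_const).aestronglyMeasurable
  rintro ⟨k, ⟨-, hk⟩, h⟩
  have I : ∀ (n : ℕ) (d : ℂ) (φ : ℝ → ℂ), ∫ y, φ y * (ind (n + 1) d).toLp _ y ∂μ =
      (∫ y in Ico ((n : ℝ) + 1) (n + 1 + 1), φ y) * d := fun n d φ => by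
    rw [← integral_mul_const, ← res, ← integral_indicator measurableSet_Ico]
    refine integral_congr_ae ?_
    filter_upwards [(ind (n + 1) d).coeFn_toLp] with y hy
    rw [hy, indicator_mul_right]
  have key : ∀ n : ℕ, ∀ᵐ x ∂μ, (Ico (0 : ℝ) (0 + 1)).indicator (fun _ => (n + 1 : ℂ)) x =
      ∫ y in Ico ((n : ℝ) + 1) (n + 1 + 1), k x y := fun n => by
    have := h ((ind (n + 1) 1).toLp _) ((ind (n + 1) (c (n + 1))).toLp _)
      ((ind 0 (n + 1)).toLp _) ((hB _ _).2 ?_) ((hA _ _).2 ?_)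
    · filter_upwards [this, (ind 0 (n + 1)).coeFn_toLp] with x h1 h2
      rw [← h2, h1, I, mul_one]
    · filter_upwards [(ind (n + 1) (c (n + 1))).coeFn_toLp] with x h1
      rw [h1, I, mul_one, setIntegral_congr_fun measurableSet_Ico
        (g := fun _ => if (n + 1 : ℤ) = ⌊x⌋ then c ⌊x⌋ else 0) fun y hy => by
          rw [show ⌊y⌋ = n + 1 from Int.floor_eq_iff.2 (by exact_mod_cast hy)]]
      by_cases e : ⌊x⌋ = n + 1
      · rw [indicator_of_mem (by exact_mod_cast Int.floor_eq_iff.1 e)]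
        simp [e]
      · rw [indicator_of_notMem fun hx => e (Int.floor_eq_iff.2 (by exact_mod_cast hx))]
        simp [Ne.symm e]
    · filter_upwards [(ind 0 (n + 1)).coeFn_toLp] with x h1
      have := hc (n + 1)
      simp only [Int.cast_add, Int.cast_natCast, Int.cast_one] at this
      rw [h1, I, integral_const_mul, mul_assoc, mul_comm _ (c _), this]
      rw [← indicator_mul_const]
      simp only [one_mul]
  have hne : μ (Ico (0 : ℝ) (0 + 1)) ≠ 0 := by
    rw [μ, Measure.restrict_apply measurableSet_Ico]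
    exact ne_of_gt (lt_of_lt_of_le (b := volume (Ioo (0 : ℝ) 1)) (by simp)
      (measure_mono fun x hx => ⟨⟨hx.1.le, by simpa using hx.2⟩, hx.1⟩))
  obtain ⟨x, hx, h1, h2⟩ := Measure.exists_mem_of_measure_ne_zero_of_ae hne
    (ae_restrict_of_ae (hk.and (ae_all_iff.2 key)))
  have h3 := (memLp_two_iff_integrable_sq_norm h1.1).1 h1
  obtain ⟨n, hn⟩ := exists_nat_gt (∫ y, ‖k x y‖ ^ 2 ∂μ)
  have h4 := h2 n
  rw [indicator_of_mem hx, ← res] at h4
  have h5 : ‖(n + 1 : ℂ)‖ ≤ ∫ y in Ico ((n : ℝ) + 1) (n + 1 + 1), (1 + ‖k x y‖ ^ 2) ∂μ := by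
    rw [h4]
    exact norm_integral_le_of_norm_le ((integrableOn_const (fin _ _)).add h3.integrableOn)
      (ae_of_all _ fun y => by nlinarith [norm_nonneg (k x y)])
  rw [integral_add (integrableOn_const (fin _ _)).integrable h3.integrableOn.integrable, res] at h5
  have h6 := setIntegral_le_integral (s := Ico ((n : ℝ) + 1) (n + 1 + 1)) h3
    (ae_of_all _ fun y => sq_nonneg _)
  rw [res] at h6
  have h7 : ‖(n + 1 : ℂ)‖ = n + 1 := by exact_mod_cast Complex.norm_natCast (n + 1)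
  simp only [h7, integral_const, smul_eq_mul, mul_one, MeasurableSet.univ, measureReal_restrict_apply,
    univ_inter, volume_real_Ico] at h5
  norm_num at h5
  linarith

end Pool.Agent.Results.MP_fd0bc0_an.Product
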